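import Pool.Agent.H158.RA.Stm

set_option autoImplicit false

namespace Pool.Agent.H686.RA

open Pool.Agent.H158.RA
open Matrix

universe u v

theorem t_zero : S_zero.{u, v} := by
  intro F _ M hI h0
  obtain ⟨hN, hS⟩ := hI
  obtain ⟨m, hm⟩ := exists_ne (0 : M.carrier)
  have h1 := hS (Submodule.span F {m}) (fun a x _ => by
    rw [(h0 a x).1, (h0 a x).2]
    exact ⟨Submodule.zero_mem _, Submodule.zero_mem _⟩)
  have htop : Submodule.span F {m} = ⊤ := by
    rcases h1 with h1 | h1
    · exact absurd ((Submodule.span_singleton_eq_bot).mp h1) hm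
    · exact h1
  let ψ : F ≃ₗ[F] M.carrier := (LinearEquiv.toSpanNonzeroSingleton F M.carrier m hm).trans
    (LinearEquiv.ofTop _ htop)
  refine ⟨ψ.symm, fun a x => ⟨?_, ?_⟩⟩
  · rw [(h0 a x).1]
    exact ψ.symm.map_zero
  · rw [(h0 a x).2]
    exact ψ.symm.map_zero

theorem t_left : S_left.{u, v} := by
  intro F _ M hI hR h1 hmul
  obtain ⟨hN, hS⟩ := hI
  obtain ⟨m, hm⟩ := exists_ne (0 : M.carrier)
  -- matrix units
  have hE : ∀ (i j k l : Fin 2) (x : M.carrier),
      M.left (single i j (1 : F)) (M.left (single k l (1 : F)) x) =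
        if j = k then M.left (single i l (1 : F)) x else 0 := by
    intro i j k l x
    rw [← hmul]
    by_cases h : j = k
    · subst h
      rw [if_pos rfl, single_mul_single_same, mul_one]
    · rw [if_neg h, single_mul_single_of_ne _ _ _ _ h, map_zero, LinearMap.zero_apply]
  have hone : ∀ x : M.carrier, x = M.left (single 0 0 (1 : F)) x + M.left (single 1 1 (1 : F)) x := by
    intro x
    have : (1 : Mat2 F) = single 0 0 (1 : F) + single 1 1 (1 : F) := by
      ext i j
      fin_cases i <;> fin_cases j <;> simp [single]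
    conv_lhs => rw [← h1 x, this, map_add, LinearMap.add_apply]
  obtain ⟨i, hi⟩ : ∃ i : Fin 2, M.left (single 0 i (1 : F)) m ≠ 0 := by
    by_contra hcon
    push Not at hcon
    apply hm
    rw [hone m]
    have e1 := hE 1 0 0 1 m
    rw [if_pos rfl] at e1
    rw [← e1, hcon 0, hcon 1, map_zero, add_zero]
  set v : M.carrier := M.left (single 0 i (1 : F)) m with hv
  have hv00 : M.left (single 0 0 (1 : F)) v = v := by
    rw [hv, hE, if_pos rfl]
  set w : M.carrier := M.left (single 1 0 (1 : F)) v with hw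
  have hav : ∀ a : Mat2 F, M.left a v = a 0 0 • v + a 1 0 • w := by
    intro a
    have e : a * single 0 0 (1 : F) = a 0 0 • single 0 0 (1 : F) + a 1 0 • single 1 0 (1 : F) := by
      ext i j
      fin_cases i <;> fin_cases j <;> simp [single, Matrix.mul_apply, Fin.sum_univ_two]
    conv_lhs => rw [← hv00, ← hmul, e, map_add, map_smul, map_smul, LinearMap.add_apply,
      LinearMap.smul_apply, LinearMap.smul_apply, hv00]
  have haw : ∀ a : Mat2 F, M.left a w = a 0 1 • v + a 1 1 • w := by
    intro a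
    have e : a * single 1 0 (1 : F) = a 0 1 • single 0 0 (1 : F) + a 1 1 • single 1 0 (1 : F) := by
      ext i j
      fin_cases i <;> fin_cases j <;> simp [single, Matrix.mul_apply, Fin.sum_univ_two]
    rw [hw, ← hmul, e, map_add, map_smul, map_smul, LinearMap.add_apply,
      LinearMap.smul_apply, LinearMap.smul_apply, hv00]
  let Φ : (Fin 2 → F) →ₗ[F] M.carrier := Fintype.linearCombination F ![v, w]
  have hΦ : ∀ r, Φ r = r 0 • v + r 1 • w := by
    intro r
    show ∑ i, r i • ![v, w] i = _
    rw [Fin.sum_univ_two]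
    rfl
  have hcomm : ∀ (a : Mat2 F) (r : Fin 2 → F), M.left a (Φ r) = Φ (a *ᵥ r) := by
    intro a r
    rw [hΦ, hΦ, map_add, map_smul, map_smul, hav, haw]
    simp only [mulVec, dotProduct, Fin.sum_univ_two, smul_add, smul_smul, add_smul]
    rw [mul_comm (r 0) (a 0 0), mul_comm (r 0) (a 1 0), mul_comm (r 1) (a 0 1),
      mul_comm (r 1) (a 1 1)]
    abel
  have hinj : Function.Injective Φ := by
    rw [← LinearMap.ker_eq_bot, LinearMap.ker_eq_bot']
    intro r hr
    have k1 := congrArg (M.left (single 0 0 (1 : F))) hr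
    have k2 := congrArg (M.left (single 0 1 (1 : F))) hr
    rw [hcomm, hΦ, map_zero] at k1 k2
    simp [mulVec, dotProduct, Fin.sum_univ_two, single] at k1 k2
    funext j
    fin_cases j
    · exact k1.resolve_right hi
    · exact k2.resolve_right hi
  have hsurj : Function.Surjective Φ := by
    rw [← LinearMap.range_eq_top]
    have k := hS (LinearMap.range Φ) (by
      rintro a _ ⟨r, rfl⟩
      rw [hR, hcomm]
      exact ⟨⟨_, rfl⟩, Submodule.zero_mem _⟩)
    rcases k with k | k
    · exfalso
      have : Φ ![1, 0] ∈ LinearMap.range Φ := ⟨_, rfl⟩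
      rw [k, Submodule.mem_bot, hΦ] at this
      simp at this
      exact hi this
    · exact k
  let ψ : (Fin 2 → F) ≃ₗ[F] M.carrier := LinearEquiv.ofBijective Φ ⟨hinj, hsurj⟩
  have e1 : ∀ r, ψ.symm (Φ r) = r := fun r => ψ.symm_apply_apply r
  refine ⟨ψ.symm, fun a x => ?_⟩
  obtain ⟨r, rfl⟩ := hsurj x
  have e2 : ψ.symm (M.left a (Φ r)) = a *ᵥ (ψ.symm (Φ r)) := by
    rw [hcomm, e1, e1]
  refine ⟨e2, ?_⟩
  rw [hR]
  exact ψ.symm.map_zero

end Pool.Agent.H686.RA
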